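import Pool.Agent.W774.TL.Stm

set_option autoImplicit false

namespace Pool.Agent.W594.TL

open Pool.Agent.W774.TL Set Filter Topology

theorem gen (E φ b : ℤ → ℝ) (hE : ∀ j, 0 < E j) (hS : Summable E)
    (hφ : Summable fun j => φ j * E j) (k k' : ℤ) (hk : k ≠ k') (hb : Summable b) (B c : ℝ)
    (hc : c * (E k + E k') = φ k * E k + φ k' * E k')
    (hB : ∑' j, b j ≤ B) (hbn : ∀ j, 0 ≤ b j)
    (hdom : ∀ j, j ≠ k → j ≠ k' → (|φ j| + |c|) * E j ≤ b j * (E k + E k')) :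
    |(∑' j, φ j * E j) / (∑' j, E j) - c| ≤ B := by
  classical
  have hZ2 : 0 < E k + E k' := add_pos (hE k) (hE k')
  have hZge : E k + E k' ≤ ∑' j, E j := by
    have := hS.sum_le_tsum {k, k'} (fun j _ => (hE j).le)
    rw [Finset.sum_pair hk] at this
    exact this
  have hZ : 0 < ∑' j, E j := lt_of_lt_of_le hZ2 hZge
  let f : ℤ → ℝ := fun j => (φ j - c) * E j
  have hf : Summable f := by
    have := hφ.sub (hS.mul_left c)
    refine this.congr (fun j => ?_)
    simp only [f]; ring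
  have hft : ∑' j, f j = (∑' j, φ j * E j) - c * ∑' j, E j := by
    rw [← tsum_mul_left, ← hφ.tsum_sub (hS.mul_left c)]
    apply tsum_congr
    intro j
    simp only [f]; ring
  have hsplit : ∑' j, f j = ∑' j : ({x : ℤ | x ∉ ({k, k'} : Finset ℤ)}), f j := by
    have := hf.sum_add_tsum_compl (s := ({k, k'} : Finset ℤ))
    rw [Finset.sum_pair hk] at this
    have h0 : f k + f k' = 0 := by
      simp only [f]; linarith
    rw [h0, zero_add] at this
    exact this.symm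
  have hbs : Summable (fun j : ({x : ℤ | x ∉ ({k, k'} : Finset ℤ)}) => b j * (E k + E k')) :=
    (hb.mul_right _).subtype _
  have habs : ∀ j : ({x : ℤ | x ∉ ({k, k'} : Finset ℤ)}), ‖f j‖ ≤ b j * (E k + E k') := by
    rintro ⟨j, hj⟩
    simp only [Finset.mem_insert, Finset.mem_singleton, mem_ofPred_eq, not_or] at hj
    have := hdom j hj.1 hj.2
    simp only [f, Real.norm_eq_abs, abs_mul, abs_of_pos (hE j)]
    refine le_trans ?_ this
    apply mul_le_mul_of_nonneg_right _ (hE j).le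
    exact abs_sub _ _
  have hle : |∑' j, f j| ≤ B * (E k + E k') := by
    rw [hsplit, ← Real.norm_eq_abs]
    refine (tsum_of_norm_bounded hbs.hasSum habs).trans ?_
    have h1 : ∑' j : ({x : ℤ | x ∉ ({k, k'} : Finset ℤ)}), b j * (E k + E k') ≤
        ∑' j, b j * (E k + E k') := by
      exact Summable.tsum_subtype_le (fun j => b j * (E k + E k'))
        {x : ℤ | x ∉ ({k, k'} : Finset ℤ)} (fun j => mul_nonneg (hbn j) hZ2.le)
        (hb.mul_right _)
    refine h1.trans ?_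
    rw [tsum_mul_right]
    exact mul_le_mul_of_nonneg_right hB hZ2.le
  have hB0 : 0 ≤ B := (tsum_nonneg hbn).trans hB
  have heq : (∑' j, φ j * E j) / (∑' j, E j) - c = (∑' j, f j) / (∑' j, E j) := by
    rw [hft]; field_simp
  rw [heq, abs_div, abs_of_pos hZ, div_le_iff₀ hZ]
  refine hle.trans ?_
  exact mul_le_mul_of_nonneg_left hZge hB0

theorem per_S (u : ℝ) (n : ℤ) : S (u + n) = S u := by
  unfold S
  rw [show 2 * Real.pi * (u + n) = 2 * Real.pi * u + n * (2 * Real.pi) by ring,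
    Real.sin_add_int_mul_two_pi]

theorem per_Co (u : ℝ) (n : ℤ) : Co (u + n) = Co u := by
  unfold Co
  rw [show 2 * Real.pi * (u + n) = 2 * Real.pi * u + n * (2 * Real.pi) by ring,
    Real.cos_add_int_mul_two_pi]

theorem arg0 (k : ℕ) (N : ℤ) (τ a : ℝ) :
    (a + k * (τ + (k + 1)) + N) - ((k : ℤ) : ℝ) * (τ + (k + 1)) = a + N := by
  push_cast; ring

theorem arg1 (k : ℕ) (N : ℤ) (τ a : ℝ) :
    (a + k * (τ + (k + 1)) + N) - (((k : ℤ) + 1 : ℤ) : ℝ) * (τ + (k + 1)) =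
      (a - τ) + ((N - (k + 1) : ℤ) : ℝ) := by
  push_cast; ring

theorem nat1 (k : ℕ) : ((k : ℤ) + 1).natAbs = k + 1 := by omega

theorem V0 (k : ℕ) (N : ℤ) (τ a : ℝ) :
    V (k : ℤ) (a + k * (τ + (k + 1)) + N) (τ + (k + 1)) = 3 ^ k * (3 / 4 + S a) := by
  unfold V
  rw [arg0, per_S, Int.natAbs_natCast]

theorem V1 (k : ℕ) (N : ℤ) (τ a : ℝ) :
    V ((k : ℤ) + 1) (a + k * (τ + (k + 1)) + N) (τ + (k + 1)) =
      3 ^ (k + 1) * (3 / 4 + S (a - τ)) := by
  unfold V
  rw [arg1, per_S, nat1]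

theorem sumI : Summable (fun j : ℤ => ((1 : ℝ) / 3) ^ j.natAbs) := by
  have h : Summable (fun n : ℕ => ((1 : ℝ) / 3) ^ n) :=
    summable_geometric_of_lt_one (by norm_num) (by norm_num)
  apply Summable.of_nat_of_neg
  · simpa using h
  · simpa using h

theorem bnd (x : ℝ) (hx : 0 < x) : x * Real.exp (-(x / 50)) ≤ 5000 * (1 / x) := by
  have h := Real.quadratic_le_exp_of_nonneg (x := x / 50) (by positivity)
  have he := Real.exp_pos (x / 50)
  rw [Real.exp_neg]
  have h2 : x ^ 2 ≤ 5000 * Real.exp (x / 50) := by nlinarith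
  rw [show x * (Real.exp (x / 50))⁻¹ = x / Real.exp (x / 50) by ring, div_le_iff₀ he,
    show 5000 * (1 / x) * Real.exp (x / 50) = (5000 * Real.exp (x / 50)) / x by ring,
    le_div_iff₀ hx]
  nlinarith

theorem sumW3 : Summable (fun j : ℤ => (3 : ℝ) ^ j.natAbs * Real.exp (-((3 : ℝ) ^ j.natAbs / 50))) := by
  refine Summable.of_nonneg_of_le (fun j => by positivity) (fun j => bnd _ (by positivity)) ?_
  have := sumI.mul_left 5000
  refine this.congr (fun j => ?_)
  rw [one_div, one_div, inv_pow]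

theorem sumW0 : Summable (fun j : ℤ => Real.exp (-((3 : ℝ) ^ j.natAbs / 50))) := by
  refine Summable.of_nonneg_of_le (fun j => by positivity) (fun j => ?_) sumW3
  have h1 : (1 : ℝ) ≤ (3 : ℝ) ^ j.natAbs := one_le_pow₀ (by norm_num)
  have := Real.exp_pos (-((3 : ℝ) ^ j.natAbs / 50))
  nlinarith

/-- the smallness of the error. -/
theorem small (W0 W3 : ℝ) : ∀ᶠ A : ℝ in atTop,
    A ^ 2 * (Real.exp (-(A / 50)) * (W3 + 3 * A * W0)) ≤ 1 := by
  have h2 : Tendsto (fun A : ℝ => A ^ 2 * Real.exp (-(1 / 50) * A)) atTop (𝓝 0) := by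
    have := tendsto_rpow_mul_exp_neg_mul_atTop_nhds_zero 2 (1 / 50) (by norm_num)
    refine this.congr (fun A => ?_)
    norm_num
  have h3 : Tendsto (fun A : ℝ => A ^ 3 * Real.exp (-(1 / 50) * A)) atTop (𝓝 0) := by
    have := tendsto_rpow_mul_exp_neg_mul_atTop_nhds_zero 3 (1 / 50) (by norm_num)
    refine this.congr (fun A => ?_)
    norm_num
  have h : Tendsto (fun A : ℝ => W3 * (A ^ 2 * Real.exp (-(1 / 50) * A)) +
      3 * W0 * (A ^ 3 * Real.exp (-(1 / 50) * A))) atTop (𝓝 (W3 * 0 + 3 * W0 * 0)) :=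
    (h2.const_mul _).add (h3.const_mul _)
  rw [mul_zero, mul_zero, add_zero] at h
  filter_upwards [h.eventually (eventually_le_nhds (b := (1 : ℝ)) (by norm_num))] with A hA
  refine le_trans (le_of_eq ?_) hA
  rw [show -(A / 50) = -(1 / 50) * A by ring]
  ring

theorem sg_pos (y : ℝ) : 0 < sg y := by unfold sg; positivity

theorem sg_lt (y : ℝ) : sg y < 1 := by
  unfold sg
  rw [div_lt_one (by positivity)]
  linarith

theorem two_thm (h1 : P_SUM) (h2 : P_DOM1) (h3 : P_DOM3) : P_TWO := by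
  have hsm := (tendsto_pow_atTop_atTop_of_one_lt (r := (3 : ℝ)) (by norm_num)).eventually
    (small (∑' j : ℤ, Real.exp (-((3 : ℝ) ^ j.natAbs / 50)))
      (∑' j : ℤ, (3 : ℝ) ^ j.natAbs * Real.exp (-((3 : ℝ) ^ j.natAbs / 50))))
  obtain ⟨K0, hK0⟩ := eventually_atTop.1 hsm
  refine ⟨K0, fun k hk N τ a p hR => ?_⟩
  have hsmk := hK0 k hk
  obtain ⟨x, hx⟩ : ∃ x : ℝ, x = a + k * (τ + (k + 1)) + N := ⟨_, rfl⟩
  obtain ⟨t, ht⟩ : ∃ t : ℝ, t = τ + (k + 1) := ⟨_, rfl⟩
  obtain ⟨A, hA⟩ : ∃ A : ℝ, A = 3 ^ k := ⟨_, rfl⟩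
  have hV0 : V (k : ℤ) x t = A * (3 / 4 + S a) := by rw [hx, ht, hA]; exact V0 k N τ a
  have hV1 : V ((k : ℤ) + 1) x t = 3 * A * (3 / 4 + S (a - τ)) := by
    rw [hx, ht, hA, V1 k N τ a]; ring
  have hC0 : Co (x - ((k : ℤ) : ℝ) * t) = Co a := by
    rw [hx, ht, arg0, per_Co]
  have hC1 : Co (x - (((k : ℤ) + 1 : ℤ) : ℝ) * t) = Co (a - τ) := by
    rw [hx, ht, arg1, per_Co]
  have hA1 : 1 ≤ A := by rw [hA]; exact one_le_pow₀ (by norm_num)
  have hkA : (k : ℝ) + 1 ≤ 3 * A := by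
    have : (k : ℝ) + 1 ≤ 3 ^ k := by
      have h := one_add_mul_le_pow (a := (2 : ℝ)) (by norm_num) k
      have hk0 : (0 : ℝ) ≤ k := Nat.cast_nonneg k
      norm_num at h
      linarith
    rw [← hA] at this
    linarith
  rw [← hx, ← ht, ← hA]
  rw [← hA] at hR hsmk
  -- domination
  have hdomE : ∀ j : ℤ, j ≠ (k : ℤ) → j ≠ (k : ℤ) + 1 → E j x p t ≤
      Real.exp (-(A / 50)) * Real.exp (-((3 : ℝ) ^ j.natAbs / 50)) *
        (E (k : ℤ) x p t + E ((k : ℤ) + 1) x p t) := by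
    intro j hj hj'
    have hp0 : 0 < E (k : ℤ) x p t := Real.exp_pos _
    have hp1 : 0 < E ((k : ℤ) + 1) x p t := Real.exp_pos _
    have hq := mul_pos (Real.exp_pos (-(A / 50))) (Real.exp_pos (-((3 : ℝ) ^ j.natAbs / 50)))
    rcases hR with hR | hR
    · have := h2 k N τ a p (by rw [← hA]; exact hR) j hj hj'
      rw [← hx, ← ht, ← hA] at this
      calc E j x p t ≤ Real.exp (-(A / 50)) * Real.exp (-((3 : ℝ) ^ j.natAbs / 50)) *
            E (k : ℤ) x p t := by
            unfold E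
            rw [← Real.exp_add, ← Real.exp_add]
            apply Real.exp_le_exp.2
            push_cast
            linarith
        _ ≤ _ := mul_le_mul_of_nonneg_left (by linarith) hq.le
    · have := h3 k N τ a p (by rw [← hA]; exact hR) j hj hj'
      rw [← hx, ← ht, ← hA] at this
      calc E j x p t ≤ Real.exp (-(A / 50)) * Real.exp (-((3 : ℝ) ^ j.natAbs / 50)) *
            E ((k : ℤ) + 1) x p t := by
            unfold E
            rw [← Real.exp_add, ← Real.exp_add]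
            apply Real.exp_le_exp.2
            push_cast
            linarith
        _ ≤ _ := mul_le_mul_of_nonneg_left (by linarith) hq.le
  -- summability
  obtain ⟨u0, hu0, hu0'⟩ := h1 0 |p|
  obtain ⟨u1, hu1, hu1'⟩ := h1 1 |p|
  have hEp : ∀ j : ℤ, 0 < E j x p t := fun j => Real.exp_pos _
  have hS : Summable (fun j : ℤ => E j x p t) :=
    Summable.of_nonneg_of_le (fun j => (hEp j).le)
      (fun j => by simpa using hu0' j x p t le_rfl) hu0
  have hS1 : ∀ φ : ℤ → ℝ, (∀ j, |φ j| ≤ (3 : ℝ) ^ j.natAbs) →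
      Summable (fun j : ℤ => φ j * E j x p t) := by
    intro φ hφ
    refine Summable.of_norm_bounded hu1 (fun j => ?_)
    rw [Real.norm_eq_abs, abs_mul, abs_of_pos (hEp j)]
    refine le_trans (mul_le_mul_of_nonneg_right (hφ j) (hEp j).le) ?_
    simpa using hu1' j x p t le_rfl
  let b : ℤ → ℝ := fun j => Real.exp (-(A / 50)) *
    ((3 : ℝ) ^ j.natAbs * Real.exp (-((3 : ℝ) ^ j.natAbs / 50)) +
      3 * A * Real.exp (-((3 : ℝ) ^ j.natAbs / 50)))
  have hb : Summable b := (sumW3.add (sumW0.mul_left (3 * A))).mul_left _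
  have hbt : ∑' j, b j = Real.exp (-(A / 50)) *
      (∑' j : ℤ, (3 : ℝ) ^ j.natAbs * Real.exp (-((3 : ℝ) ^ j.natAbs / 50)) +
        3 * A * ∑' j : ℤ, Real.exp (-((3 : ℝ) ^ j.natAbs / 50))) := by
    simp only [b]
    rw [tsum_mul_left, sumW3.tsum_add (sumW0.mul_left (3 * A)), tsum_mul_left]
  have hbB : ∑' j, b j ≤ 1 / A ^ 2 := by
    rw [hbt, le_div_iff₀ (by positivity)]
    linarith
  have hbn : ∀ j, 0 ≤ b j := fun j => by simp only [b]; positivity
  have hdom : ∀ (φ : ℤ → ℝ) (c : ℝ), (∀ j, |φ j| ≤ (3 : ℝ) ^ j.natAbs) → |c| ≤ 3 * A →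
      ∀ j : ℤ, j ≠ (k : ℤ) → j ≠ (k : ℤ) + 1 →
        (|φ j| + |c|) * E j x p t ≤ b j * (E (k : ℤ) x p t + E ((k : ℤ) + 1) x p t) := by
    intro φ c hφ hc j hj hj'
    have hd := hdomE j hj hj'
    have h3j : (0 : ℝ) < (3 : ℝ) ^ j.natAbs := by positivity
    calc (|φ j| + |c|) * E j x p t ≤ ((3 : ℝ) ^ j.natAbs + 3 * A) * E j x p t :=
          mul_le_mul_of_nonneg_right (add_le_add (hφ j) hc) (hEp j).le
      _ ≤ ((3 : ℝ) ^ j.natAbs + 3 * A) *
          (Real.exp (-(A / 50)) * Real.exp (-((3 : ℝ) ^ j.natAbs / 50)) *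
            (E (k : ℤ) x p t + E ((k : ℤ) + 1) x p t)) :=
          mul_le_mul_of_nonneg_left hd (by positivity)
      _ = _ := by simp only [b]; ring
  have hkk : (k : ℤ) ≠ (k : ℤ) + 1 := by omega
  -- the weight
  have hsg : sg (yy A τ a p) * (E (k : ℤ) x p t + E ((k : ℤ) + 1) x p t) =
      E ((k : ℤ) + 1) x p t := by
    have he : E ((k : ℤ) + 1) x p t = E (k : ℤ) x p t * Real.exp (yy A τ a p) := by
      unfold E
      rw [← Real.exp_add, hV0, hV1]
      congr 1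
      unfold yy
      push_cast
      ring
    rw [he]
    unfold sg
    have : (1 + Real.exp (yy A τ a p)) ≠ 0 := by positivity
    field_simp
  obtain ⟨s, hs⟩ : ∃ s : ℝ, s = sg (yy A τ a p) := ⟨_, rfl⟩
  have hs0 : 0 < s := hs ▸ sg_pos _
  have hs1 : s < 1 := hs ▸ sg_lt _
  rw [← hs] at hsg ⊢
  have hk0 : (0 : ℝ) ≤ k := Nat.cast_nonneg k
  constructor
  · have hφ : ∀ j : ℤ, |(j : ℝ)| ≤ (3 : ℝ) ^ j.natAbs := by
      intro j
      have h := one_add_mul_le_pow (a := (2 : ℝ)) (by norm_num) j.natAbs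
      have hj : |(j : ℝ)| = (j.natAbs : ℝ) := by
        rw [← Int.cast_abs, Int.abs_eq_natAbs]; simp
      rw [hj]
      have hj0 : (0 : ℝ) ≤ (j.natAbs : ℝ) := Nat.cast_nonneg _
      norm_num at h
      linarith
    have := gen (fun j => E j x p t) (fun j => (j : ℝ)) b hEp hS (hS1 _ hφ) (k : ℤ) ((k : ℤ) + 1)
      hkk hb (1 / A ^ 2) (k + s) (by push_cast; linear_combination hsg) hbB hbn
      (hdom _ _ hφ (by rw [abs_of_nonneg (by positivity)]; linarith))
    unfold hp Z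
    rw [sub_sub]
    exact this
  · have hφ : ∀ j : ℤ, |(3 : ℝ) ^ j.natAbs * Co (x - j * t)| ≤ (3 : ℝ) ^ j.natAbs := by
      intro j
      rw [abs_mul, abs_of_pos (by positivity)]
      have : |Co (x - j * t)| ≤ 1 := Real.abs_cos_le_one _
      have h3 : (0 : ℝ) < (3 : ℝ) ^ j.natAbs := by positivity
      nlinarith
    have hCa : |Co a| ≤ 1 := Real.abs_cos_le_one _
    have hCb : |Co (a - τ)| ≤ 1 := Real.abs_cos_le_one _
    have hc : |A * ((1 - s) * Co a + 3 * s * Co (a - τ))| ≤ 3 * A := by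
      rw [abs_mul, abs_of_pos (by linarith)]
      have : |(1 - s) * Co a + 3 * s * Co (a - τ)| ≤ 3 := by
        refine (abs_add_le _ _).trans ?_
        rw [abs_mul, abs_mul, abs_of_pos (by linarith : 0 < 1 - s),
          abs_of_pos (by linarith : 0 < 3 * s)]
        nlinarith [abs_nonneg (Co a), abs_nonneg (Co (a - τ))]
      nlinarith
    have := gen (fun j => E j x p t) (fun j => (3 : ℝ) ^ j.natAbs * Co (x - j * t)) b hEp hS
      (hS1 _ hφ) (k : ℤ) ((k : ℤ) + 1) hkk hb (1 / A ^ 2)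
      (A * ((1 - s) * Co a + 3 * s * Co (a - τ))) (by
        rw [hC0, hC1, Int.natAbs_natCast, nat1, pow_succ, ← hA]
        linear_combination (-A * Co a + 3 * A * Co (a - τ)) * hsg) hbB hbn
      (hdom _ _ hφ hc)
    unfold fo Z
    refine this.trans ?_
    rw [div_le_one (by positivity)]
    nlinarith

end Pool.Agent.W594.TL
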